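import Mathlib

/-!
# Definitions for MP_8301b4_gt

Cantor-Bendixson derivatives, scattering levels, meta-Lindelöf and Eberlein-Grothendieck spaces,
and the poset `P` of finite sets attached to a point-countable open refinement.
-/

namespace Pool.Agent.Lib.MP_8301b4_gt

open Topology Filter Set
open scoped Cardinal Ordinal

universe u

/-- `C_p(K)`: continuous real functions on `K` with the topology of pointwise convergence. -/
abbrev Cp (K : Type u) [TopologicalSpace K] : Type u := {f : K → ℝ // Continuous f}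

/-- `X` is an Eberlein-Grothendieck space: it is homeomorphic to a subspace of `C_p(K)` for some
compact (Hausdorff) `K`. -/
def EberleinGrothendieck (X : Type u) [TopologicalSpace X] : Prop :=
  ∃ (K : Type u) (_ : TopologicalSpace K) (_ : CompactSpace K) (_ : T2Space K) (f : X → Cp K),
    IsEmbedding f

/-- `𝒱` is a point-countable open cover of the space that refines the family `𝒰`. -/
def IsPointCountableOpenRefinement {X : Type u} [TopologicalSpace X] (𝒱 𝒰 : Set (Set X)) : Prop :=
  (∀ V ∈ 𝒱, IsOpen V) ∧ ⋃₀ 𝒱 = univ ∧ (∀ V ∈ 𝒱, ∃ U ∈ 𝒰, V ⊆ U) ∧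
    ∀ x : X, {V ∈ 𝒱 | x ∈ V}.Countable

/-- `X` is meta-Lindelöf: every open cover has a point-countable open refinement. -/
def MetaLindelof (X : Type u) [TopologicalSpace X] : Prop :=
  ∀ 𝒰 : Set (Set X), (∀ U ∈ 𝒰, IsOpen U) → ⋃₀ 𝒰 = univ →
    ∃ 𝒱 : Set (Set X), IsPointCountableOpenRefinement 𝒱 𝒰

/-- `X` is hereditarily meta-Lindelöf. -/
def HereditarilyMetaLindelof (X : Type u) [TopologicalSpace X] : Prop :=
  ∀ Y : Set X, MetaLindelof Y

/-- `X` is scattered: every nonempty subset has a (relatively) isolated point. -/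
def Scattered (X : Type u) [TopologicalSpace X] : Prop :=
  ∀ Y : Set X, Y.Nonempty → ∃ y ∈ Y, ¬ AccPt y (𝓟 Y)

/-- The iterated derivatives: `X^(0) = X`, `X^(α+1)` is the set of non-isolated points of
`X^(α)`, and `X^(λ) = ⋂_{α < λ} X^(α)` for limit `λ`. -/
noncomputable def cbDeriv (X : Type u) [TopologicalSpace X] (α : Ordinal.{u}) : Set X :=
  Ordinal.limitRecOn α univ (fun _ A => {x ∈ A | AccPt x (𝓟 A)})
    (fun o _ ih => ⋂ β, ⋂ h : β < o, ih β h)

/-- The set of points of scattering level `α`. -/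
noncomputable def level (X : Type u) [TopologicalSpace X] (α : Ordinal.{u}) : Set X :=
  cbDeriv X α \ cbDeriv X (α + 1)

/-- The height of `X` is `α`: `α` is the least ordinal with `X^(α) = ∅`. -/
def HasHeight (X : Type u) [TopologicalSpace X] (α : Ordinal.{u}) : Prop :=
  IsLeast {β : Ordinal.{u} | cbDeriv X β = ∅} α

/-- A choice of open sets `U_x` such that `U_x` meets the scattering level of `x` exactly in
`{x}`. -/
def LevelIsolating {X : Type u} [TopologicalSpace X] (U : X → Set X) : Prop :=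
  ∀ x, IsOpen (U x) ∧ ∀ α, x ∈ level X α → U x ∩ level X α = {x}

/-- `V_x`: the union of all members of `𝒱` that contain `x`. -/
def star {X : Type u} (𝒱 : Set (Set X)) (x : X) : Set X := ⋃₀ {V ∈ 𝒱 | x ∈ V}

/-- The poset `P` of finite sets `p` with `V_x ∩ p = {x}` for all `x ∈ p`. -/
def conditions {X : Type u} (𝒱 : Set (Set X)) : Set (Set X) :=
  {p | p.Finite ∧ ∀ x ∈ p, star 𝒱 x ∩ p = {x}}

/-- Two conditions are compatible if some condition contains both (the order of `P` is reverse
inclusion). -/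
def Compatible {X : Type u} (P : Set (Set X)) (p q : Set X) : Prop := ∃ r ∈ P, p ⊆ r ∧ q ⊆ r

/-- The countable chain condition: every family of pairwise incompatible conditions is
countable. -/
def CCC {X : Type u} (P : Set (Set X)) : Prop :=
  ∀ 𝒜 ⊆ P, (𝒜.Pairwise fun p q => ¬ Compatible P p q) → 𝒜.Countable

/-- The standing hypotheses on the space of the problem. -/
def IsProblemSpace (X : Type u) [TopologicalSpace X] : Prop :=
  T35Space X ∧ EberleinGrothendieck X ∧ HereditarilyMetaLindelof X ∧ Scattered X ∧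
    HasHeight X (Ordinal.omega 1) ∧ #X = Cardinal.aleph 1

theorem cbDeriv_zero (X : Type u) [TopologicalSpace X] : cbDeriv X 0 = univ :=
  Ordinal.limitRecOn_zero _ _ _

theorem cbDeriv_add_one (X : Type u) [TopologicalSpace X] (α : Ordinal.{u}) :
    cbDeriv X (α + 1) = {x ∈ cbDeriv X α | AccPt x (𝓟 (cbDeriv X α))} :=
  Ordinal.limitRecOn_add_one _ _ _ _

theorem cbDeriv_limit (X : Type u) [TopologicalSpace X] {α : Ordinal.{u}}
    (hα : Order.IsSuccLimit α) : cbDeriv X α = ⋂ β, ⋂ _ : β < α, cbDeriv X β :=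
  Ordinal.limitRecOn_limit _ _ _ _ hα

/-- If some member of the cover is uncountable then `P` is not ccc. -/
theorem not_ccc_of_uncountable {X : Type u} {𝒱 : Set (Set X)} (hcov : ⋃₀ 𝒱 = univ)
    {V : Set X} (hV : V ∈ 𝒱) (hunc : ¬ V.Countable) : ¬ CCC (conditions 𝒱) := by
  intro hccc
  have hmem : ∀ y : X, y ∈ star 𝒱 y := by
    intro y
    have : y ∈ ⋃₀ 𝒱 := by rw [hcov]; trivial
    obtain ⟨W, hW, hyW⟩ := this
    exact ⟨W, ⟨hW, hyW⟩, hyW⟩
  have h1 := hccc ((fun y : X => ({y} : Set X)) '' V) (by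
    rintro _ ⟨y, _, rfl⟩
    refine ⟨Set.finite_singleton y, ?_⟩
    intro x hx
    rw [mem_singleton_iff] at hx
    subst hx
    ext z
    constructor
    · rintro ⟨_, hz⟩; exact hz
    · intro hz
      rw [mem_singleton_iff] at hz
      subst hz
      exact ⟨hmem z, rfl⟩) (by
    rintro _ ⟨y, hy, rfl⟩ _ ⟨z, hz, rfl⟩ hne ⟨r, hr, hyr, hzr⟩
    apply hne
    have hyr' : y ∈ r := hyr rfl
    have hzr' : z ∈ r := hzr rfl
    have hz2 : z ∈ star 𝒱 y ∩ r := ⟨⟨V, ⟨hV, hy⟩, hz⟩, hzr'⟩
    rw [hr.2 y hyr', mem_singleton_iff] at hz2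
    simp [hz2])
  apply hunc
  have h2 : Set.InjOn (fun y : X => ({y} : Set X)) V := fun a _ b _ hab => by simpa using hab
  exact Set.countable_of_injective_of_countable_image h2 h1

end Pool.Agent.Lib.MP_8301b4_gt
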